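import Pool.Agent.Helper187.CC.Stmts

/-!
Task `TaskThree` of the project on colourings of cycles: the symmetric 2-dependent 3-colouring.
-/

set_option autoImplicit false
open Finset

namespace H187CC
namespace Three

/-! ### words -/

lemma del1_cons {A : Type} (f : List A → ℝ) (a : A) (w : List A) :
    del 1 f (a :: w) = f w + del 1 (fun v => f (a :: v)) w := by
  rw [del_cons, one_pow, one_mul]

lemma del1_append {A : Type} (f : List A → ℝ) (u v : List A) :
    del 1 f (u ++ v) = del 1 (fun u' => f (u' ++ v)) u + del 1 (fun v' => f (u ++ v')) v := by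
  rw [del_append, one_pow, one_mul]

lemma del1_map {A : Type} (f : List A → ℝ) (σ : A → A) (w : List A) :
    del 1 f (w.map σ) = del 1 (fun v => f (v.map σ)) w := by
  induction w generalizing f with
  | nil => rfl
  | cons a w ih => rw [List.map_cons, del1_cons, del1_cons, ih]; rfl

lemma del1_reverse {A : Type} (f : List A → ℝ) (w : List A) :
    del 1 f w.reverse = del 1 (fun v => f v.reverse) w := by
  induction w generalizing f with
  | nil => rfl
  | cons a w ih =>
    rw [List.reverse_cons, del1_append, ih, del1_cons, del1_cons]
    simp only [del_nil, List.reverse_cons, List.append_nil, add_zero]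
    ring

lemma proper_snoc {A : Type} (u : List A) (b e : A) :
    Proper (u ++ [b, e]) ↔ Proper (u ++ [b]) ∧ b ≠ e := by
  induction u with
  | nil => simp [Proper]
  | cons a u ih =>
    cases u with
    | nil => simp [Proper]
    | cons c u =>
      simp only [List.cons_append, Proper] at ih ⊢
      rw [ih, and_assoc]

lemma proper_reverse {A : Type} (w : List A) : Proper w.reverse ↔ Proper w := by
  induction w with
  | nil => simp
  | cons a w ih =>
    cases w with
    | nil => simp
    | cons b w =>
      rw [List.reverse_cons, List.reverse_cons, List.append_assoc]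
      rw [List.reverse_cons] at ih
      change Proper (w.reverse ++ [b, a]) ↔ a ≠ b ∧ Proper (b :: w)
      rw [proper_snoc, ih]
      constructor
      · rintro ⟨h1, h2⟩; exact ⟨h2.symm, h1⟩
      · rintro ⟨h1, h2⟩; exact ⟨h2, h1.symm⟩

lemma proper_map {A : Type} (σ : Equiv.Perm A) (w : List A) :
    Proper (w.map σ) ↔ Proper w := by
  induction w with
  | nil => simp
  | cons a w ih =>
    cases w with
    | nil => simp [Proper]
    | cons b w =>
      simp only [List.map_cons, Proper] at ih ⊢
      rw [ih]
      simp

lemma not_proper_adj {A : Type} (u : List A) (c : A) (w : List A) : ¬ Proper (u ++ c :: c :: w) :=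
  fun h => (Proper_append_right h).1 rfl

/-! ### the finite combinatorial lemma -/

lemma fin3 (a : Fin 3) : a = 0 ∨ a = 1 ∨ a = 2 := by
  fin_cases a <;> simp

lemma fin_lemma (a b : Fin 3) (T A B D E : Fin 3 → Fin 3 → ℝ) (C : Fin 3 → ℝ)
    (hT : ∀ c d, c ≠ a → c ≠ d → d ≠ b → T c d = A c d + B c d + C d + C c + D c d + E c d)
    (hT0 : ∀ c d, (c = a ∨ c = d ∨ d = b) → T c d = 0)
    (hA0 : ∀ c d, (c = a ∨ c = d ∨ d = b) → A c d = 0)
    (hE0 : ∀ c d, (c = a ∨ c = d ∨ d = b) → E c d = 0)
    (hB0 : ∀ c d, (c = d ∨ d = b) → B c d = 0) (hBa : ∀ d, B a d = C d)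
    (hD0 : ∀ c d, (c = a ∨ c = d) → D c d = 0) (hDb : ∀ c, D c b = C c) :
    ∑ c, ∑ d, T c d = (∑ c, ∑ d, A c d) + (∑ c, ∑ d, B c d) + (∑ c, ∑ d, D c d)
      + ∑ c, ∑ d, E c d := by
  have hCa : C a = 0 := by rw [← hBa a]; exact hB0 a a (Or.inl rfl)
  have hCb : C b = 0 := by rw [← hDb b]; exact hD0 b b (Or.inr rfl)
  have hT' : ∀ c d, T c d = if (c = a ∨ c = d ∨ d = b) then 0 else
      A c d + B c d + C d + C c + D c d + E c d := by
    intro c d
    split_ifs with h
    · exact hT0 c d h
    · push Not at h
      exact hT c d h.1 h.2.1 h.2.2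
  simp only [hT']
  simp only [Fin.sum_univ_three]
  have e0 := hBa 0
  have e1 := hBa 1
  have e2 := hBa 2
  have f0 := hDb 0
  have f1 := hDb 1
  have f2 := hDb 2
  rcases fin3 a with rfl | rfl | rfl <;> rcases fin3 b with rfl | rfl | rfl <;>
    simp [hA0, hE0, hB0, hD0] <;> linarith

/-! ### building counts -/

open Classical in
/-- number of proper buildings -/
noncomputable def KN : ℕ → List (Fin 3) → ℝ
  | 0, _ => 1
  | n + 1, w => if Proper w then del 1 (KN n) w else 0

noncomputable def K (w : List (Fin 3)) : ℝ := KN w.length w

lemma K_nil : K [] = 1 := rfl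

lemma K_improper (w : List (Fin 3)) (h : ¬ Proper w) : K w = 0 := by
  cases w with
  | nil => exact absurd trivial h
  | cons a v =>
    unfold K
    rw [List.length_cons]
    unfold KN
    rw [if_neg h]

lemma K_rec (w : List (Fin 3)) (h : Proper w) (hw : w ≠ []) : K w = del 1 K w := by
  obtain ⟨a, v, rfl⟩ := List.exists_cons_of_ne_nil hw
  have h1 : K (a :: v) = del 1 (KN v.length) (a :: v) := by
    unfold K
    rw [List.length_cons]
    conv_lhs => unfold KN
    rw [if_pos h]
  rw [h1]
  apply del_congr
  intro u hu
  have : u.length = v.length := by simpa using hu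
  rw [K, this]

lemma K_nonneg (w : List (Fin 3)) : 0 ≤ K w := by
  have : ∀ n (w : List (Fin 3)), 0 ≤ KN n w := by
    intro n
    induction n with
    | zero => intro w; exact zero_le_one
    | succ n ih =>
      intro w
      unfold KN
      split_ifs
      · exact del_nonneg 1 zero_le_one _ _ ih
      · exact le_refl _
  exact this _ _

lemma K_reverse (w : List (Fin 3)) : K w.reverse = K w := by
  have : ∀ n (w : List (Fin 3)), KN n w.reverse = KN n w := by
    intro n
    induction n with
    | zero => intro w; rfl
    | succ n ih =>
      intro w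
      have e : (fun v : List (Fin 3) => KN n v.reverse) = KN n := funext ih
      unfold KN
      rw [del1_reverse, e]
      by_cases h : Proper w
      · rw [if_pos h, if_pos ((proper_reverse w).2 h)]
      · rw [if_neg h, if_neg (fun h2 => h ((proper_reverse w).1 h2))]
  rw [K, K, List.length_reverse, this]

/-- an adjacency of two equal letters -/
lemma K_adj (u : List (Fin 3)) (c : Fin 3) (w : List (Fin 3)) : K (u ++ c :: c :: w) = 0 :=
  K_improper _ (not_proper_adj u c w)

lemma K_adj0 (c : Fin 3) (w : List (Fin 3)) : K (c :: c :: w) = 0 := K_adj [] c w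

lemma K_sing (c : Fin 3) : K [c] = 1 := by
  rw [K_rec [c] trivial (by simp), del1_cons, K_nil]
  simp

/-- Kolmogorov consistency on the left -/
lemma M1L : ∀ (n : ℕ) (w : List (Fin 3)), w.length = n →
    ∑ c : Fin 3, K (c :: w) = ((n : ℝ) + 3) * K w := by
  intro n
  induction n with
  | zero =>
    intro w hw
    rw [List.length_eq_zero_iff] at hw
    subst hw
    simp only [K_sing, K_nil]
    simp
  | succ n ih =>
    intro w hw
    obtain ⟨b, v, rfl⟩ := List.exists_cons_of_length_eq_add_one hw
    have hv : v.length = n := by simpa using hw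
    by_cases hp : Proper (b :: v)
    · have hK : K (b :: v) = K v + del 1 (fun x => K (b :: x)) v := by
        rw [K_rec _ hp (by simp), del1_cons]
      have key : ∀ c, c ≠ b → K (c :: b :: v)
          = K (b :: v) + K (c :: v) + del 1 (fun x => K (c :: b :: x)) v := by
        intro c hc
        rw [K_rec (c :: b :: v) ⟨hc, hp⟩ (by simp), del1_cons, del1_cons]
        ring
      have hdel : ∑ c : Fin 3, del 1 (fun x => K (c :: b :: x)) v
          = ((n : ℝ) + 3) * del 1 (fun x => K (b :: x)) v := by
        rw [← del_mul, Fin.sum_univ_three, ← del_add, ← del_add]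
        apply del_congr
        intro x hx
        have := ih (b :: x) (by rw [List.length_cons, hx, hv])
        rw [Fin.sum_univ_three] at this
        exact this
      have hbb : del 1 (fun x => K (b :: b :: x)) v = 0 := by
        simp only [K_adj0]
        exact del_zero 1 v
      have hv2 := ih v hv
      rw [Fin.sum_univ_three] at hdel hv2 ⊢
      push_cast
      rcases fin3 b with rfl | rfl | rfl
      · rw [K_adj0, key 1 (by decide), key 2 (by decide)]
        linear_combination hdel + hv2 - hbb + (-(n : ℝ) - 4 + 1) * hK
      · rw [K_adj0, key 0 (by decide), key 2 (by decide)]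
        linear_combination hdel + hv2 - hbb + (-(n : ℝ) - 4 + 1) * hK
      · rw [K_adj0, key 0 (by decide), key 1 (by decide)]
        linear_combination hdel + hv2 - hbb + (-(n : ℝ) - 4 + 1) * hK
    · rw [K_improper _ hp]
      rw [Finset.sum_eq_zero, mul_zero]
      intro c _
      exact K_improper _ (fun h => hp (Proper_tail h))

lemma M1R (w : List (Fin 3)) :
    ∑ c : Fin 3, K (w ++ [c]) = ((w.length : ℝ) + 3) * K w := by
  have h := M1L w.length w.reverse (by simp)
  rw [K_reverse] at h
  rw [← h]
  apply Finset.sum_congr rfl
  intro c _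
  rw [← K_reverse]
  simp

/-- two letters in the middle -/
lemma M2 : ∀ (n : ℕ) (u w : List (Fin 3)), u.length + w.length = n →
    ∑ c : Fin 3, ∑ d : Fin 3, K (u ++ c :: d :: w)
      = 2 * (Nat.choose (u.length + w.length + 4) (u.length + 2) : ℝ) * (K u * K w) := by
  intro n
  induction n using Nat.strong_induction_on with
  | _ n ih =>
    intro u w hn
    by_cases hu : Proper u
    swap
    · rw [K_improper u hu, zero_mul, mul_zero]
      apply Finset.sum_eq_zero
      intro c _
      apply Finset.sum_eq_zero
      intro d _
      exact K_improper _ (fun h => hu (Proper_append_left h))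
    by_cases hw : Proper w
    swap
    · rw [K_improper w hw, mul_zero, mul_zero]
      apply Finset.sum_eq_zero
      intro c _
      apply Finset.sum_eq_zero
      intro d _
      exact K_improper _ (fun h => hw (Proper_tail (Proper_tail (Proper_append_right h))))
    rcases List.eq_nil_or_concat u with rfl | ⟨u', a, rfl⟩
    · -- u empty
      simp only [List.nil_append, List.length_nil, zero_add, K_nil, one_mul]
      rw [Finset.sum_comm]
      have h1 : ∀ d : Fin 3, ∑ c : Fin 3, K (c :: d :: w) = ((w.length : ℝ) + 4) * K (d :: w) := by
        intro d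
        rw [M1L (w.length + 1) (d :: w) (by simp)]
        push_cast
        ring
      simp only [h1]
      rw [← Finset.mul_sum, M1L w.length w rfl]
      rw [Nat.choose_two_right]
      have h2 : ((w.length + 4) * (w.length + 4 - 1)) = 2 * ((w.length + 4) * (w.length + 4 - 1) / 2) := by
        rw [Nat.mul_div_cancel']
        exact (Nat.even_mul_pred_self _).two_dvd
      have h3 : (((w.length : ℝ) + 4) * ((w.length : ℝ) + 3))
          = 2 * (((w.length + 4) * (w.length + 4 - 1) / 2 : ℕ) : ℝ) := by
        have := congrArg (Nat.cast : ℕ → ℝ) h2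
        push_cast [Nat.cast_sub (show 1 ≤ w.length + 4 by omega)] at this
        push_cast [Nat.cast_sub (show 1 ≤ w.length + 4 by omega)]
        linarith
      rw [← h3]
      ring
    rcases w with _ | ⟨b, w'⟩
    · -- w empty
      simp only [List.length_nil, add_zero, K_nil, mul_one]
      have h1 : ∀ c : Fin 3, ∑ d : Fin 3, K ((u' ++ [a]) ++ [c, d])
          = (((u' ++ [a]).length : ℝ) + 4) * K ((u' ++ [a]) ++ [c]) := by
        intro c
        have e : ∀ d : Fin 3, (u' ++ [a]) ++ [c, d] = ((u' ++ [a]) ++ [c]) ++ [d] := by
          intro d; simp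
        simp only [e]
        rw [M1R, List.length_append (as := u' ++ [a]) (bs := [c])]
        push_cast [List.length_singleton]
        ring
      simp only [List.concat_eq_append] at *
      simp only [h1]
      rw [← Finset.mul_sum, M1R]
      rw [show (u' ++ [a]).length + 4 = ((u' ++ [a]).length + 2) + 2 by ring,
        Nat.choose_symm_add, Nat.choose_two_right]
      set l := (u' ++ [a]).length with hl
      have h2 : ((l + 2 + 2) * (l + 2 + 2 - 1)) = 2 * ((l + 2 + 2) * (l + 2 + 2 - 1) / 2) := by
        rw [Nat.mul_div_cancel']
        exact (Nat.even_mul_pred_self _).two_dvd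
      have h3 : (((l : ℝ) + 4) * ((l : ℝ) + 3))
          = 2 * (((l + 2 + 2) * (l + 2 + 2 - 1) / 2 : ℕ) : ℝ) := by
        have := congrArg (Nat.cast : ℕ → ℝ) h2
        push_cast [Nat.cast_sub (show 1 ≤ l + 2 + 2 by omega)] at this
        push_cast [Nat.cast_sub (show 1 ≤ l + 2 + 2 by omega)]
        linarith
      rw [← h3]
      ring
    · -- both nonempty
      simp only [List.concat_eq_append, List.append_assoc, List.cons_append, List.nil_append,
        List.length_append, List.length_cons, List.length_nil] at *
      have hKu : K (u' ++ [a]) = del 1 (fun v => K (v ++ [a])) u' + K u' := by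
        rw [K_rec _ hu (by simp), del1_append, del1_cons]
        simp
      have hKw : K (b :: w') = K w' + del 1 (fun v => K (b :: v)) w' := by
        rw [K_rec _ hw (by simp), del1_cons]
      have key := fin_lemma a b (fun c d => K (u' ++ a :: c :: d :: b :: w'))
        (fun c d => del 1 (fun v => K (v ++ a :: c :: d :: b :: w')) u')
        (fun c d => K (u' ++ c :: d :: b :: w'))
        (fun c d => K (u' ++ a :: c :: d :: w'))
        (fun c d => del 1 (fun v => K (u' ++ a :: c :: d :: b :: v)) w')
        (fun d => K (u' ++ a :: d :: b :: w'))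
        ?_ ?_ ?_ ?_ ?_ ?_ ?_ ?_
      · rw [key]
        have hA : ∑ c : Fin 3, ∑ d : Fin 3, del 1 (fun v => K (v ++ a :: c :: d :: b :: w')) u'
            = 2 * (Nat.choose (u'.length + w'.length + 5) (u'.length + 2) : ℝ) * K (b :: w')
              * del 1 (fun v => K (v ++ [a])) u' := by
          rw [← del_mul]
          simp only [Fin.sum_univ_three, ← del_add]
          apply del_congr
          intro v hv
          have := ih (v.length + 1 + (w'.length + 1)) (by omega) (v ++ [a]) (b :: w') (by simp)
          simp only [List.append_assoc, List.cons_append, List.nil_append, List.length_append,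
            List.length_cons, List.length_nil, Fin.sum_univ_three] at this
          rw [show v.length + (0 + 1) + (w'.length + 1) + 4 = u'.length + w'.length + 5 by omega,
            show v.length + (0 + 1) + 2 = u'.length + 2 by omega] at this
          linarith
        have hB := ih (u'.length + (w'.length + 1)) (by omega) u' (b :: w') (by simp)
        have hD := ih (u'.length + 1 + w'.length) (by omega) (u' ++ [a]) w' (by simp)
        have hE : ∑ c : Fin 3, ∑ d : Fin 3, del 1 (fun v => K (u' ++ a :: c :: d :: b :: v)) w'
            = 2 * (Nat.choose (u'.length + w'.length + 5) (u'.length + 3) : ℝ) * K (u' ++ [a])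
              * del 1 (fun v => K (b :: v)) w' := by
          rw [← del_mul]
          simp only [Fin.sum_univ_three, ← del_add]
          apply del_congr
          intro v hv
          have := ih (u'.length + 1 + (v.length + 1)) (by omega) (u' ++ [a]) (b :: v) (by simp)
          simp only [List.append_assoc, List.cons_append, List.nil_append, List.length_append,
            List.length_cons, List.length_nil, Fin.sum_univ_three] at this
          rw [show u'.length + (0 + 1) + (v.length + 1) + 4 = u'.length + w'.length + 5 by omega,
            show u'.length + (0 + 1) + 2 = u'.length + 3 by omega] at this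
          linarith
        simp only [List.append_assoc, List.cons_append, List.nil_append, List.length_append,
            List.length_cons, List.length_nil] at hB hD
        rw [hA, hB, hD, hE]
        rw [show u'.length + (w'.length + 1) + 4 = u'.length + w'.length + 5 by omega,
          show u'.length + (0 + 1) + w'.length + 4 = u'.length + w'.length + 5 by omega,
          show u'.length + (0 + 1) + (w'.length + 1) + 4 = (u'.length + w'.length + 5) + 1 by omega,
          show u'.length + (0 + 1) + 2 = u'.length + 2 + 1 by omega]
        have hch : (Nat.choose (u'.length + w'.length + 5 + 1) (u'.length + 2 + 1) : ℝ)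
            = (Nat.choose (u'.length + w'.length + 5) (u'.length + 2) : ℝ)
              + (Nat.choose (u'.length + w'.length + 5) (u'.length + 2 + 1) : ℝ) := by
          exact_mod_cast Nat.choose_succ_succ (u'.length + w'.length + 5) (u'.length + 2)
        rw [hch, hKu, hKw]
        ring
      · intro c d hc hcd hd
        have hp : Proper (u' ++ a :: c :: d :: b :: w') :=
          Proper_glue hu ⟨hc.symm, hcd, hd, hw⟩
        rw [K_rec _ hp (by simp), del1_append, del1_cons, del1_cons, del1_cons, del1_cons]
        ring
      · intro c d h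
        rcases h with rfl | rfl | rfl
        · exact K_adj u' _ _
        · exact K_improper _ (fun h => (Proper_tail (Proper_append_right h)).1 rfl)
        · exact K_improper _ (fun h => (Proper_tail (Proper_tail (Proper_append_right h))).1 rfl)
      · intro c d h
        have : ∀ v, K (v ++ a :: c :: d :: b :: w') = 0 := by
          intro v
          rcases h with rfl | rfl | rfl
          · exact K_adj v _ _
          · exact K_improper _ (fun h => (Proper_tail (Proper_append_right h)).1 rfl)
          · exact K_improper _ (fun h => (Proper_tail (Proper_tail (Proper_append_right h))).1 rfl)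
        simp only [this]
        exact del_zero 1 _
      · intro c d h
        have : ∀ v, K (u' ++ a :: c :: d :: b :: v) = 0 := by
          intro v
          rcases h with rfl | rfl | rfl
          · exact K_adj u' _ _
          · exact K_improper _ (fun h => (Proper_tail (Proper_append_right h)).1 rfl)
          · exact K_improper _ (fun h => (Proper_tail (Proper_tail (Proper_append_right h))).1 rfl)
        simp only [this]
        exact del_zero 1 _
      · intro c d h
        rcases h with rfl | rfl
        · exact K_adj u' _ _
        · exact K_improper _ (fun h => (Proper_tail (Proper_append_right h)).1 rfl)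
      · intro d; rfl
      · intro c d h
        rcases h with rfl | rfl
        · exact K_adj u' _ _
        · exact K_improper _ (fun h => (Proper_tail (Proper_append_right h)).1 rfl)
      · intro c; rfl

/-! ### the path law -/

noncomputable def P (w : List (Fin 3)) : ℝ := 2 * K w / (Nat.factorial (w.length + 2) : ℝ)

lemma P_law : PathLaw 3 2 P := by
  refine ⟨?_, ?_, ?_, ?_, ?_⟩
  · simp [P, K_nil]
  · intro w
    exact div_nonneg (mul_nonneg zero_le_two (K_nonneg w)) (Nat.cast_nonneg _)
  · intro w
    have hf : (Nat.factorial (w.length + 2) : ℝ) ≠ 0 := Nat.cast_ne_zero.2 (Nat.factorial_ne_zero _)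
    have h3 : (w.length : ℝ) + 3 ≠ 0 := by positivity
    simp only [P, List.length_cons]
    rw [← Finset.sum_div, ← Finset.mul_sum, M1L w.length w rfl,
      show w.length + 1 + 2 = (w.length + 2) + 1 by ring, Nat.factorial_succ]
    push_cast
    have h4 : (w.length : ℝ) + 2 + 1 ≠ 0 := by positivity
    field_simp
    ring
  · intro w
    have hf : (Nat.factorial (w.length + 2) : ℝ) ≠ 0 := Nat.cast_ne_zero.2 (Nat.factorial_ne_zero _)
    have h3 : (w.length : ℝ) + 3 ≠ 0 := by positivity
    simp only [P, List.length_append, List.length_singleton]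
    rw [← Finset.sum_div, ← Finset.mul_sum, M1R w,
      show w.length + 1 + 2 = (w.length + 2) + 1 by ring, Nat.factorial_succ]
    push_cast
    have h4 : (w.length : ℝ) + 2 + 1 ≠ 0 := by positivity
    field_simp
    ring
  · intro u w
    simp only [sumr, List.append_assoc, List.cons_append, List.nil_append]
    simp only [P, List.length_append, List.length_cons]
    simp only [← Finset.sum_div, ← Finset.mul_sum]
    rw [M2 (u.length + w.length) u w rfl]
    have h := Nat.add_choose_mul_factorial_mul_factorial (w.length + 2) (u.length + 2)
    rw [show w.length + 2 + (u.length + 2) = u.length + w.length + 4 by ring] at h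
    rw [show u.length + (w.length + 1 + 1) + 2 = u.length + w.length + 4 by ring]
    have h' := congrArg (Nat.cast : ℕ → ℝ) h
    push_cast at h'
    have hf1 : (Nat.factorial (u.length + 2) : ℝ) ≠ 0 :=
      Nat.cast_ne_zero.2 (Nat.factorial_ne_zero _)
    have hf2 : (Nat.factorial (w.length + 2) : ℝ) ≠ 0 :=
      Nat.cast_ne_zero.2 (Nat.factorial_ne_zero _)
    have hf3 : (Nat.factorial (u.length + w.length + 4) : ℝ) ≠ 0 :=
      Nat.cast_ne_zero.2 (Nat.factorial_ne_zero _)
    rw [div_mul_div_comm, div_eq_div_iff hf3 (mul_ne_zero hf1 hf2), ← h']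
    ring

/-! ### cyclic words -/

/-- cyclically proper -/
def CP : List (Fin 3) → Prop
  | [] => True
  | a :: w => Proper (a :: w ++ [a])

lemma CP_rot (w : List (Fin 3)) (b : Fin 3) : CP (w ++ [b]) ↔ CP (b :: w) := by
  cases w with
  | nil => exact Iff.rfl
  | cons e w =>
    change Proper (e :: (w ++ [b]) ++ [e]) ↔ Proper (b :: e :: w ++ [b])
    have h := proper_snoc (e :: w) b e
    have e1 : e :: (w ++ [b]) ++ [e] = e :: w ++ [b, e] := by simp
    rw [e1, h]
    change Proper (e :: w ++ [b]) ∧ b ≠ e ↔ b ≠ e ∧ Proper (e :: w ++ [b])
    exact and_comm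

lemma CP_proper {w : List (Fin 3)} (h : CP w) : Proper w := by
  cases w with
  | nil => trivial
  | cons a w => exact Proper_append_left h

lemma CP_map (σ : Equiv.Perm (Fin 3)) (w : List (Fin 3)) : CP (w.map σ) ↔ CP w := by
  cases w with
  | nil => exact Iff.rfl
  | cons a w =>
    change Proper (σ a :: w.map σ ++ [σ a]) ↔ Proper (a :: w ++ [a])
    rw [← proper_map σ (a :: w ++ [a])]
    simp

open Classical in
/-- cyclic building numbers, for words of length n + 3 -/
noncomputable def CN : ℕ → List (Fin 3) → ℝ
  | 0, w => if CP w then 1 else 0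
  | n + 1, w => if CP w then del 1 (CN n) w else 0

lemma CN_zero_of (n : ℕ) (w : List (Fin 3)) (h : ¬ CP w) : CN n w = 0 := by
  cases n with
  | zero => exact if_neg h
  | succ n => exact if_neg h

lemma CN_rec (n : ℕ) (w : List (Fin 3)) (h : CP w) : CN (n + 1) w = del 1 (CN n) w := if_pos h

lemma CN_nonneg (n : ℕ) : ∀ w, 0 ≤ CN n w := by
  induction n with
  | zero =>
    intro w
    unfold CN
    split_ifs
    · exact zero_le_one
    · exact le_refl _
  | succ n ih =>
    intro w
    unfold CN
    split_ifs
    · exact del_nonneg 1 zero_le_one _ _ ih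
    · exact le_refl _

lemma CN_map (n : ℕ) (σ : Equiv.Perm (Fin 3)) : ∀ w, CN n (w.map σ) = CN n w := by
  induction n with
  | zero =>
    intro w
    by_cases h : CP w
    · have h2 := (CP_map σ w).2 h
      unfold CN
      rw [if_pos h, if_pos h2]
    · rw [CN_zero_of 0 w h, CN_zero_of 0 _ (fun h2 => h ((CP_map σ w).1 h2))]
  | succ n ih =>
    intro w
    by_cases h : CP w
    · have h2 := (CP_map σ w).2 h
      rw [CN_rec n w h, CN_rec n _ h2, del1_map]
      congr 1
      exact funext ih
    · rw [CN_zero_of _ w h, CN_zero_of _ _ (fun h2 => h ((CP_map σ w).1 h2))]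

lemma CN_rot (n : ℕ) : ∀ (b : Fin 3) (w : List (Fin 3)), CN n (w ++ [b]) = CN n (b :: w) := by
  induction n with
  | zero =>
    intro b w
    by_cases h : CP (b :: w)
    · have h2 := (CP_rot w b).2 h
      unfold CN
      rw [if_pos h, if_pos h2]
    · rw [CN_zero_of 0 _ h, CN_zero_of 0 _ (fun h2 => h ((CP_rot w b).1 h2))]
  | succ n ih =>
    intro b w
    by_cases h : CP (b :: w)
    · have h2 := (CP_rot w b).2 h
      rw [CN_rec n _ h, CN_rec n _ h2, del1_append, del1_cons, del1_cons]
      simp only [del_nil, List.append_nil, add_zero]
      rw [add_comm]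
      congr 2
      funext v
      exact ih b v
    · rw [CN_zero_of _ _ h, CN_zero_of _ _ (fun h2 => h ((CP_rot w b).1 h2))]

lemma CN_adj (n : ℕ) (u : List (Fin 3)) (c : Fin 3) (w : List (Fin 3)) :
    CN n (u ++ c :: c :: w) = 0 :=
  CN_zero_of n _ (fun h => not_proper_adj u c w (CP_proper h))

lemma not_CP_ends (c : Fin 3) (w : List (Fin 3)) : ¬ CP (c :: (w ++ [c])) := by
  intro h
  have h2 : CP ((c :: w) ++ [c]) := h
  rw [CP_rot] at h2
  exact not_proper_adj [] c w (CP_proper h2)

/-- the two-letter marginal of the cyclic numbers -/
lemma CM2 : ∀ (n : ℕ) (w : List (Fin 3)), w.length = n + 1 →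
    ∑ c : Fin 3, ∑ d : Fin 3, CN n (w ++ [c, d]) = 2 * K w := by
  intro n
  induction n with
  | zero =>
    intro w hw
    obtain ⟨a, rfl⟩ := List.length_eq_one_iff.1 hw
    rw [K_sing]
    have h : ∀ c d : Fin 3, CN 0 ([a] ++ [c, d]) = if (a ≠ c ∧ c ≠ d ∧ d ≠ a) then 1 else 0 := by
      intro c d
      by_cases h : a ≠ c ∧ c ≠ d ∧ d ≠ a
      · rw [if_pos h]
        have : CP ([a] ++ [c, d]) := ⟨h.1, h.2.1, h.2.2, trivial⟩
        exact if_pos this
      · rw [if_neg h]
        exact CN_zero_of 0 _ (fun h2 => h ⟨h2.1, h2.2.1, h2.2.2.1⟩)
    simp only [h, Fin.sum_univ_three]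
    rcases fin3 a with rfl | rfl | rfl <;> simp (decide := true) <;> norm_num
  | succ n ih =>
    intro w hw
    obtain ⟨b, v, rfl⟩ := List.exists_cons_of_length_eq_add_one hw
    have hv : v.length = n + 1 := by simpa using hw
    rcases List.eq_nil_or_concat v with rfl | ⟨x, a, rfl⟩
    · simp at hv
    rw [List.concat_eq_append] at *
    have hx : x.length = n := by simpa using hv
    -- rotate
    have hrot : ∀ (m : ℕ) (z : List (Fin 3)) (c d : Fin 3),
        CN m (b :: (z ++ [c, d])) = CN m (z ++ [c, d, b]) := by
      intro m z c d
      rw [← CN_rot]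
      simp
    have hgoal : ∀ c d : Fin 3, CN (n + 1) (b :: (x ++ [a]) ++ [c, d])
        = CN (n + 1) (x ++ [a, c, d, b]) := by
      intro c d
      have := hrot (n + 1) (x ++ [a]) c d
      simpa using this
    simp only [hgoal]
    by_cases hp : Proper (b :: (x ++ [a]))
    · have hK : K (b :: (x ++ [a])) = K (x ++ [a]) + (del 1 (fun v => K (b :: (v ++ [a]))) x
          + K (b :: x)) := by
        rw [K_rec _ hp (by simp), del1_cons, del1_append, del1_cons]
        simp
      have key := fin_lemma a b (fun c d => CN (n + 1) (x ++ [a, c, d, b]))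
        (fun c d => del 1 (fun v => CN n (v ++ [a, c, d, b])) x)
        (fun c d => CN n (x ++ [c, d, b]))
        (fun c d => CN n (x ++ [a, c, d]))
        (fun c d => 0)
        (fun d => CN n (x ++ [a, d, b]))
        ?_ ?_ ?_ ?_ ?_ ?_ ?_ ?_
      · rw [key]
        have hA : ∑ c : Fin 3, ∑ d : Fin 3, del 1 (fun v => CN n (v ++ [a, c, d, b])) x
            = 2 * del 1 (fun v => K (b :: (v ++ [a]))) x := by
          rw [← del_mul]
          simp only [Fin.sum_univ_three, ← del_add]
          apply del_congr
          intro v hv2
          have := ih (b :: (v ++ [a])) (by simp; omega)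
          rw [← this]
          have e : ∀ c d : Fin 3, CN n (b :: (v ++ [a]) ++ [c, d]) = CN n (v ++ [a, c, d, b]) := by
            intro c d
            have := hrot n (v ++ [a]) c d
            simpa using this
          simp only [e, Fin.sum_univ_three]
        have hB : ∑ c : Fin 3, ∑ d : Fin 3, CN n (x ++ [c, d, b]) = 2 * K (b :: x) := by
          rw [← ih (b :: x) (by simp; omega)]
          apply Finset.sum_congr rfl
          intro c _
          apply Finset.sum_congr rfl
          intro d _
          rw [← hrot]
          rfl
        have hD : ∑ c : Fin 3, ∑ d : Fin 3, CN n (x ++ [a, c, d]) = 2 * K (x ++ [a]) := by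
          rw [← ih (x ++ [a]) (by simp; omega)]
          apply Finset.sum_congr rfl
          intro c _
          apply Finset.sum_congr rfl
          intro d _
          simp
        rw [hA, hB, hD, hK]
        simp
        ring
      · intro c d hc hcd hd
        have hcp : CP (x ++ [a, c, d, b]) := by
          have e : x ++ [a, c, d, b] = (x ++ [a, c, d]) ++ [b] := by simp
          rw [e, CP_rot]
          change Proper (b :: (x ++ [a, c, d]) ++ [b])
          have e2 : b :: (x ++ [a, c, d]) ++ [b] = (b :: x) ++ a :: [c, d, b] := by simp
          rw [e2]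
          exact Proper_glue hp ⟨hc.symm, hcd, hd, trivial⟩
        rw [CN_rec n _ hcp, del1_append, del1_cons, del1_cons, del1_cons, del1_cons]
        simp only [del_nil, add_zero]
        ring
      · intro c d h
        rcases h with rfl | rfl | rfl
        · exact CN_adj _ x _ _
        · have := CN_adj (n + 1) (x ++ [a]) c [b]
          simpa using this
        · have := CN_adj (n + 1) (x ++ [a, c]) d []
          simpa using this
      · intro c d h
        have : ∀ v, CN n (v ++ [a, c, d, b]) = 0 := by
          intro v
          rcases h with rfl | rfl | rfl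
          · exact CN_adj _ v _ _
          · have := CN_adj n (v ++ [a]) c [b]
            simpa using this
          · have := CN_adj n (v ++ [a, c]) d []
            simpa using this
        simp only [this]
        exact del_zero 1 _
      · intro c d _
        rfl
      · intro c d h
        rcases h with rfl | rfl
        · exact CN_adj _ x _ _
        · have := CN_adj n (x ++ [c]) d []
          simpa using this
      · intro d; rfl
      · intro c d h
        rcases h with rfl | rfl
        · exact CN_adj _ x _ _
        · have := CN_adj n (x ++ [a]) c []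
          simpa using this
      · intro c; rfl
    · rw [K_improper _ hp, mul_zero]
      apply Finset.sum_eq_zero
      intro c _
      apply Finset.sum_eq_zero
      intro d _
      rw [← hgoal]
      exact CN_zero_of _ _ (fun h => hp (Proper_append_left (CP_proper h)))

lemma C_law (n : ℕ) : CycLaw 3 2 (n + 3) P
    (fun w => CN n w / (Nat.factorial (n + 3) : ℝ)) := by
  refine ⟨?_, ?_, ?_, ?_, ?_⟩
  · intro w _
    exact div_nonneg (CN_nonneg n w) (Nat.cast_nonneg _)
  · intro σ w _
    change CN n (w.map σ) / _ = CN n w / _
    rw [CN_map]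
  · intro a w _
    change CN n (w ++ [a]) / _ = CN n (a :: w) / _
    rw [CN_rot]
  · intro a w _
    change CN n (a :: a :: w) / _ = 0
    rw [show CN n (a :: a :: w) = 0 from CN_adj n [] a w, zero_div]
  · intro w hw
    have hw' : w.length = n + 1 := by omega
    simp only [sumr, ← Finset.sum_div]
    rw [CM2 n w hw', P, hw']

end Three

theorem taskThree : TaskThree := by
  refine ⟨Three.P, Three.P_law, fun n hn => ?_⟩
  obtain ⟨m, rfl⟩ : ∃ m, n = m + 3 := ⟨n - 3, by omega⟩
  exact ⟨_, Three.C_law m⟩

end H187CC
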